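import Mathlib
import Pool.Agent.Y146.PR.Star

/-!
# Hilbert series of Chow rings of genus zero prestable strata of bounded diameter are transcendental

Let `n ≥ 0` and let `U ⊆ 𝔐_{0,n}` be an open union of strata which is not of finite type, and such
that the diameters of the dual trees of the curves in `U` are bounded.  Then the Hilbert series of
the Chow ring of `U` is transcendental over `ℚ(t)`, in particular it is not rational.

For every open union of strata `V` of finite type the union of `V` and the star locus has these
properties, so every open union of strata of finite type is contained in one whose Hilbert series is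
not algebraic.  The dimension of the Chow groups of the union of any open union of strata with the
star locus is computed exactly in terms of partitions.

The Chow groups are those given by the generators (decorated trees in normal form) and the relations
(isomorphisms, WDVV) of Bae and Schmitt, see `Pool/Agent/W526/Prestable.lean`.
-/

set_option autoImplicit false

namespace Pool.Agent.Results.MP_52bf41_ag.BoundedDiameter

open Pool.Agent.W526.Prestable Pool.Agent.Y146.PR

/-- The dual trees have boundedly many vertices: `U` is of finite type (it has finitely many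
strata). -/
def FiniteType {n : ℕ} (U : Set (LegGraph n)) : Prop := ∃ N, ∀ Γ ∈ U, Γ.k ≤ N

/-- The diameters of the dual trees are bounded: the lengths of the chains of components of the
curves in `U` are bounded. -/
def BoundedDiameter {n : ℕ} (U : Set (LegGraph n)) : Prop :=
  ∃ D, ∀ Γ ∈ U, ∀ a b, Γ.G.dist a b ≤ D

theorem open_union {n : ℕ} {V W : Set (LegGraph n)} (hV : IsOpenUnionOfStrata V)
    (hW : IsOpenUnionOfStrata W) : IsOpenUnionOfStrata (V ∪ W) where
  tree := by
    rintro Γ (h | h)
    · exact hV.tree Γ h
    · exact hW.tree Γ h
  generize := by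
    rintro Γ (h | h) Γ' hc
    · exact Or.inl (hV.generize Γ h Γ' hc)
    · exact Or.inr (hW.generize Γ h Γ' hc)

theorem star_mem (n k : ℕ) : ∃ Γ ∈ starLocus n, Γ.k = k + 1 :=
  ⟨⟨k + 1, SimpleGraph.starGraph 0, fun _ => 0⟩, ⟨(0 : Fin (k + 1)), fun _ => rfl,
    fun _ _ => SimpleGraph.starGraph_adj⟩, rfl⟩

theorem bounded_union {n : ℕ} {V : Set (LegGraph n)} (hV : IsOpenUnionOfStrata V)
    (hf : FiniteType V) : BoundedDiameter (V ∪ starLocus n) := by
  obtain ⟨N, hN⟩ := hf
  refine ⟨N + 2, ?_⟩
  rintro Γ (h | h) a b
  · have hT := hV.tree Γ h
    obtain ⟨p, hp, hl⟩ := (hT.connected a b).exists_path_of_dist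
    have h1 := hp.length_lt
    rw [Fintype.card_fin] at h1
    have h2 := hN Γ h
    omega
  · have hT := (isOpen_star n).tree Γ h
    obtain ⟨c, -, hc⟩ := h
    have key : ∀ a, Γ.G.dist a c ≤ 1 := by
      intro a
      by_cases hac : a = c
      · rw [hac, SimpleGraph.dist_self]
        omega
      · rw [SimpleGraph.dist_eq_one_iff_adj.2 ((hc a c).2 ⟨hac, Or.inr rfl⟩)]
    have h1 := hT.connected.dist_triangle (u := a) (v := c) (w := b)
    have h2 := key a
    have h3 := key b
    rw [SimpleGraph.dist_comm] at h3
    omega

/-- (1) For every `n` and every open union of strata `U` of `𝔐_{0,n}` which is not of finite type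
and has bounded diameter, all Chow groups of `U` are finite-dimensional, the Hilbert series
converges for `|t| < 1`, and it is transcendental over `ℚ(t)`; in particular it is not rational.
Moreover `U` contains the star locus.
(2) For every open union of strata `V` of finite type (for example the empty one), the union of `V`
with the star locus is an open union of strata of infinite type and bounded diameter.
(3) Let `V` be an open union of strata whose stars are those with at most `K` vertices, `n + K ≥ 3`.
The dimension of `CH^d` of the union of `V` with the star locus is the dimension of `CH^d(V)` plus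
the number of partitions of `d` with at least `K` parts. -/
theorem result (n : ℕ) :
    (∀ U : Set (LegGraph n), IsOpenUnionOfStrata U → ¬ FiniteType U → BoundedDiameter U →
      (∀ d, Module.Finite ℚ (Chow U d)) ∧ starLocus n ⊆ U ∧
      (∀ r : ℝ, 0 < r → r < 1 →
        Summable (fun d => (Module.finrank ℚ (Chow U d) : ℝ) * r ^ d)) ∧
      Transcendental (Polynomial ℚ) (hilbertSeries U) ∧ ¬ IsRational (hilbertSeries U)) ∧
    (∀ V : Set (LegGraph n), IsOpenUnionOfStrata V → FiniteType V →
      IsOpenUnionOfStrata (V ∪ starLocus n) ∧ ¬ FiniteType (V ∪ starLocus n) ∧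
        BoundedDiameter (V ∪ starLocus n)) ∧
    (∀ (V : Set (LegGraph n)) (K : ℕ), IsOpenUnionOfStrata V → 3 ≤ n + K →
      (∀ Γ ∈ starLocus n, Γ ∈ V ↔ Γ.k ≤ K) → ∀ d,
        Module.finrank ℚ (Chow (V ∪ starLocus n) d) = Module.finrank ℚ (Chow V d) +
          Nat.card {p : Nat.Partition d // K ≤ p.parts.card}) := by
  refine ⟨fun U hU hinf hb => ?_, fun V hV hf => ?_, fun V K hV hK hS d => ?_⟩
  · obtain ⟨D, hD⟩ := hb
    have hinf' : ∀ N, ∃ Γ ∈ U, N ≤ Γ.k := by
      intro N
      by_contra hcon
      push Not at hcon
      exact hinf ⟨N, fun Γ hΓ => (hcon Γ hΓ).le⟩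
    have hs := star_subset hU D hD hinf'
    have ht := transcendental_of_star hU D hD hs
    exact ⟨fun d => chow_finite U d, hs, fun r h0 h1 => summable_finrank hU D hD r h0 h1, ht,
      not_rational_of_transcendental ht⟩
  · refine ⟨open_union hV (isOpen_star n), ?_, bounded_union hV hf⟩
    rintro ⟨N, hN⟩
    obtain ⟨Γ, hΓ, hk⟩ := star_mem n N
    have := hN Γ (Or.inr hΓ)
    omega
  · rw [Nat.card_eq_fintype_card]
    exact finrank_union hK hV hS d

end Pool.Agent.Results.MP_52bf41_ag.BoundedDiameter
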